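import Pool.Agent.Helper52.SM.Goals

/-!
# SM-CLG: restriction and normalization of labelled lists
-/

namespace Pool.Agent.Helper41.SM

open Pool.Agent.Helper52.SM
open Pool.Agent.Helper78

/-- A name occurs at most once. -/
theorem names_inj {s : List (ℕ × Bool)} (hs : (s.map Prod.fst).Nodup) {v : ℕ} {a b : Bool}
    (ha : (v, a) ∈ s) (hb : (v, b) ∈ s) : a = b := by
  have h := List.inj_on_of_nodup_map hs ha hb rfl
  exact (Prod.mk.injEq _ _ _ _ ▸ h).2

theorem ovb_mem {s : List (ℕ × Bool)} (hs : (s.map Prod.fst).Nodup) {v : ℕ} {a : Bool}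
    (ha : (v, a) ∈ s) (β : Bool) : ovb s v β = a := by
  unfold ovb
  cases a with
  | true =>
    rw [if_pos (by simpa using ha)]
  | false =>
    have h : (v, true) ∉ s := fun h => by simpa using names_inj hs h ha
    rw [if_neg (by simpa using h), if_pos (by simpa using ha)]

theorem ovb_not_mem {s : List (ℕ × Bool)} {v : ℕ} {a : Bool}
    (h1 : (v, a) ∉ s) (h2 : (v, !a) ∉ s) (β : Bool) : ovb s v β = β := by
  unfold ovb
  cases a with
  | true =>
    rw [if_neg (by simpa using h1), if_neg (by simpa using h2)]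
  | false =>
    rw [if_neg (by simpa using h2), if_neg (by simpa using h1)]

theorem coins_of_le {m : ℕ} (y : Fin m → Bool) {v : ℕ} (h : m ≤ v) : PM.coins y v = false := by
  unfold PM.coins
  rw [dif_neg (by omega)]

/-- The test of `clg`. -/
def keep (m : ℕ) (s t : List (ℕ × Bool)) : Bool :=
  t.all fun p => !s.contains (p.1, !p.2) && !t.contains (p.1, !p.2) && !(decide (m ≤ p.1) && p.2)

/-- The rest of a term. -/
def rest (m : ℕ) (s t : List (ℕ × Bool)) : List (ℕ × Bool) :=
  (t.filter fun p => decide (p.1 < m) && !s.contains p).dedup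

theorem clg_eq {β : Type} (m : ℕ) (s : List (ℕ × Bool)) (F : List (List (ℕ × Bool) × β)) :
    clg m s F = (F.filter fun e => keep m s e.1).map fun e => (rest m s e.1, e.2) := by
  unfold clg keep rest
  congr 1

theorem keep_iff {m : ℕ} {s t : List (ℕ × Bool)} :
    keep m s t = true ↔ ∀ p ∈ t, (p.1, !p.2) ∉ s ∧ (p.1, !p.2) ∉ t ∧ (m ≤ p.1 → p.2 = false) := by
  unfold keep
  simp only [List.all_eq_true, Bool.and_eq_true, Bool.not_eq_true', List.contains_eq_mem,
    decide_eq_false_iff_not, Bool.and_eq_false_iff, and_assoc]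
  refine forall₂_congr fun p _ => and_congr_right fun _ => and_congr_right fun _ => ?_
  constructor
  · rintro (h | h) h'
    · exact absurd h' h
    · exact h
  · intro h
    by_cases h' : m ≤ p.1
    · exact Or.inr (h h')
    · exact Or.inl h'

theorem mem_rest {m : ℕ} {s t : List (ℕ × Bool)} {p : ℕ × Bool} :
    p ∈ rest m s t ↔ p ∈ t ∧ p.1 < m ∧ p ∉ s := by
  unfold rest
  simp [List.mem_dedup, List.mem_filter]

theorem keep_of_sat {m : ℕ} {s t : List (ℕ × Bool)} (hs : (s.map Prod.fst).Nodup)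
    (hm : ∀ p ∈ s, p.1 < m) (y : Fin m → Bool)
    (h : ∀ p ∈ t, ov s (PM.coins y) p.1 = p.2) : keep m s t = true := by
  rw [keep_iff]
  intro p hp
  refine ⟨fun h1 => ?_, fun h1 => ?_, fun h1 => ?_⟩
  · have h2 := h p hp
    unfold ov at h2
    rw [ovb_mem hs h1] at h2
    exact absurd h2 (by simp)
  · have h2 := h p hp
    have h3 := h _ h1
    dsimp only at h3
    rw [h2] at h3
    exact absurd h3 (by simp)
  · have h2 := h p hp
    unfold ov at h2
    have h3 : ∀ a : Bool, (p.1, a) ∉ s := fun a ha => by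
      have := hm _ ha
      dsimp only at this
      omega
    rw [ovb_not_mem (h3 true) (h3 _), coins_of_le y h1] at h2
    exact h2.symm

theorem sat_iff {m : ℕ} {s t : List (ℕ × Bool)} (hs : (s.map Prod.fst).Nodup)
    (y : Fin m → Bool) (hk : keep m s t = true) :
    (∀ p ∈ rest m s t, PM.coins y p.1 = p.2) ↔ ∀ p ∈ t, ov s (PM.coins y) p.1 = p.2 := by
  rw [keep_iff] at hk
  constructor
  · intro h p hp
    obtain ⟨h1, h2, h3⟩ := hk p hp
    unfold ov
    by_cases hps : p ∈ s
    · exact ovb_mem hs (v := p.1) (a := p.2) hps _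
    · rw [ovb_not_mem (a := p.2) hps h1]
      by_cases hpm : p.1 < m
      · exact h p (mem_rest.2 ⟨hp, hpm, hps⟩)
      · rw [coins_of_le y (by omega), h3 (by omega)]
  · intro h p hp
    obtain ⟨h1, h2, h3⟩ := mem_rest.1 hp
    have h4 := h p h1
    unfold ov at h4
    rwa [ovb_not_mem (a := p.2) h3 (hk p h1).1] at h4

theorem evg_clg {β : Type} {m : ℕ} {s : List (ℕ × Bool)} (hs : (s.map Prod.fst).Nodup)
    (hm : ∀ p ∈ s, p.1 < m) (y : Fin m → Bool) (d : β) (F : List (List (ℕ × Bool) × β)) :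
    evg d (PM.coins y) (clg m s F) = evg d (ov s (PM.coins y)) F := by
  rw [clg_eq]
  induction F with
  | nil => rfl
  | cons e F ih =>
    by_cases hk : keep m s e.1 = true
    · rw [List.filter_cons_of_pos (p := fun e : List (ℕ × Bool) × β => keep m s e.1) hk, List.map_cons]
      by_cases h : ∀ p ∈ e.1, ov s (PM.coins y) p.1 = p.2
      · simp only [evg]
        rw [if_pos h, if_pos ((sat_iff hs y hk).2 h)]
      · simp only [evg]
        rw [if_neg h, if_neg (fun h' => h ((sat_iff hs y hk).1 h'))]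
        exact ih
    · rw [List.filter_cons_of_neg (p := fun e : List (ℕ × Bool) × β => keep m s e.1) hk]
      simp only [evg]
      rw [if_neg (fun h => hk (keep_of_sat hs hm y h))]
      exact ih

/-- **CLG.** -/
theorem clg : ClgStmt := by
  intro β m s F d hs hm
  refine ⟨?_, ?_, fun y => ⟨evg_clg hs hm y d F, ?_⟩⟩
  · rw [clg_eq, List.length_map]
    exact List.length_filter_le _ _
  · intro e' he'
    rw [clg_eq] at he'
    obtain ⟨e, he, rfl⟩ := List.mem_map.1 he'
    obtain ⟨heF, hk⟩ := List.mem_filter.1 he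
    rw [keep_iff] at hk
    refine ⟨List.nodup_dedup _, fun p hp => ?_, e, heF, ?_, rfl⟩
    · obtain ⟨h1, h2, h3⟩ := mem_rest.1 hp
      exact ⟨h2, fun h4 => (hk p h1).2.1 (mem_rest.1 h4).1⟩
    · exact ((List.dedup_sublist _).length_le).trans (List.length_filter_le _ _)
  · rintro ⟨e, he, h⟩
    have hk := keep_of_sat hs hm y h
    refine ⟨(rest m s e.1, e.2), ?_, (sat_iff hs y hk).2 h⟩
    rw [clg_eq]
    exact List.mem_map.2 ⟨e, List.mem_filter.2 ⟨he, hk⟩, rfl⟩

end Pool.Agent.Helper41.SM
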